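import Pool.Agent.H84.WsbD

namespace Pool.Agent.Results.MP_605a0d_an.NoCH

open Pool.Agent.H84.WsbDefs

theorem result (h : CH) : ∃ (E : Type) (_ : NormedAddCommGroup E) (_ : NormedSpace ℝ E)
    (_ : CompleteSpace E), HasWeakStarBasis E ∧ ¬ HasWeakStarSchauderBasis E :=
  (Pool.Agent.H84.Wsb.main' h).elim fun E r =>
    ⟨E, inferInstance, inferInstance, r.1.completeSpace_coe, r.2.1,
      fun s => r.2.2 (Pool.Agent.H84.Wsb.sep' s)⟩

end Pool.Agent.Results.MP_605a0d_an.NoCH
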